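import Pool.Agent.N718.DC.Stm4
import Pool.Agent.N454.DC.PADT

/-!
Project DW (helper718), part TRW: local points move with the coefficients and the base point.
-/

set_option autoImplicit false

namespace Pool.Agent.N91.DW

open Pool.Agent.N718.DC Finset Polynomial

lemma fm_congr2 {q : ℤ} {e : ℕ} {c c' : Fin (e + 2) → ℤ} {x y x' y' : ℤ}
    (hc : ∀ j, q ∣ c j - c' j) (hx : q ∣ x - x') (hy : q ∣ y - y') :
    q ∣ fm c x y - fm c' x' y' := by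
  rw [← Ideal.mem_span_singleton, ← Ideal.Quotient.eq] at hx hy ⊢
  rw [Pool.Agent.N454.DC.fm_map, Pool.Agent.N454.DC.fm_map, hx, hy]
  congr 1
  funext j
  rw [Ideal.Quotient.eq, Ideal.mem_span_singleton]
  exact hc j

variable {p : ℕ} [hp : Fact p.Prime]

lemma two_norm : ((p : ℝ))⁻¹ ≤ ‖(2 : ℤ_[p])‖ := by
  have hp1 : (1 : ℝ) < p := by exact_mod_cast hp.out.one_lt
  by_cases h : p = 2
  · subst h
    have : ‖((2 : ℕ) : ℤ_[2])‖ = ((2 : ℕ) : ℝ)⁻¹ := PadicInt.norm_p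
    simpa using this.ge
  · have h3 : ‖(2 : ℤ_[p])‖ = 1 := by
      have h4 : ‖((2 : ℤ) : ℤ_[p])‖ = 1 := by
        by_contra hne
        have h5 : ‖((2 : ℤ) : ℤ_[p])‖ < 1 := lt_of_le_of_ne (PadicInt.norm_le_one _) hne
        rw [PadicInt.norm_int_lt_one_iff_dvd] at h5
        have h6 : p ∣ 2 := by exact_mod_cast h5
        rcases (Nat.dvd_prime Nat.prime_two).1 h6 with h7 | h7
        · exact hp.out.one_lt.ne' h7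
        · exact h h7
      simpa using h4
    rw [h3]
    exact inv_le_one_of_one_le₀ hp1.le

lemma one_sq2 {z : ℤ_[p]} {m : ℕ} (hz : ‖z - 1‖ ≤ ((p : ℝ) ^ (m + 3))⁻¹) :
    ∃ w : ℤ_[p], w ^ 2 = z ∧ ‖w - 1‖ ≤ ((p : ℝ) ^ (m + 2))⁻¹ := by
  have hp1 : (1 : ℝ) < p := by exact_mod_cast hp.out.one_lt
  have hp0 : (0 : ℝ) < p := by linarith
  have h2 := two_norm (p := p)
  have h2pos : 0 < ‖(2 : ℤ_[p])‖ := lt_of_lt_of_le (inv_pos.2 hp0) h2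
  have e2 : (aeval (1 : ℤ_[p])) (derivative (X ^ 2 - C z : ℤ_[p][X])) = 2 := by
    simp
    norm_num
  obtain ⟨w, hw, hw1, -⟩ := hensels_lemma (p := p) (F := (X ^ 2 - C z : ℤ_[p][X])) (a := 1) (by
    have e1 : (aeval (1 : ℤ_[p])) (X ^ 2 - C z : ℤ_[p][X]) = 1 - z := by simp
    rw [e1, e2, norm_sub_rev]
    have h3 : ((p : ℝ) ^ (m + 3))⁻¹ < ((p : ℝ)⁻¹) ^ 2 := by
      rw [inv_pow]
      exact inv_strictAnti₀ (by positivity) (pow_lt_pow_right₀ hp1 (by omega))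
    calc ‖z - 1‖ ≤ ((p : ℝ) ^ (m + 3))⁻¹ := hz
      _ < ((p : ℝ)⁻¹) ^ 2 := h3
      _ ≤ ‖(2 : ℤ_[p])‖ ^ 2 := by gcongr)
  rw [e2] at hw1
  have hwz : w ^ 2 = z := by
    have : w ^ 2 - z = 0 := by simpa using hw
    exact sub_eq_zero.1 this
  refine ⟨w, hwz, ?_⟩
  have h3 : ‖w + 1‖ = ‖(2 : ℤ_[p])‖ := by
    have h4 : w + 1 = (w - 1) + 2 := by ring
    rw [h4]
    have h5 : ‖w - 1‖ ≠ ‖(2 : ℤ_[p])‖ := hw1.ne
    rw [IsUltrametricDist.norm_add_eq_max_of_norm_ne_norm h5, max_eq_right hw1.le]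
  have h4 : ‖w - 1‖ * ‖(2 : ℤ_[p])‖ = ‖z - 1‖ := by
    rw [← h3, ← norm_mul, ← hwz]
    congr 1
    ring
  have h5 : ‖w - 1‖ * (p : ℝ)⁻¹ ≤ ((p : ℝ) ^ (m + 3))⁻¹ := by
    calc ‖w - 1‖ * (p : ℝ)⁻¹ ≤ ‖w - 1‖ * ‖(2 : ℤ_[p])‖ := by gcongr
      _ = ‖z - 1‖ := h4
      _ ≤ _ := hz
  have h6 : ((p : ℝ) ^ (m + 3))⁻¹ = ((p : ℝ) ^ (m + 2))⁻¹ * (p : ℝ)⁻¹ := by
    rw [← mul_inv, ← pow_succ]
  rw [h6] at h5
  exact le_of_mul_le_mul_right h5 (inv_pos.2 hp0)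

lemma ratio_sq2 {A B : ℚ_[p]} {m : ℕ} (hB : B ≠ 0)
    (h : ‖A - B‖ ≤ ((p : ℝ) ^ (m + 3))⁻¹ * ‖B‖) :
    ∃ w : ℚ_[p], w ≠ 0 ∧ A = B * w ^ 2 ∧ ‖1 - w‖ ≤ ((p : ℝ) ^ (m + 2))⁻¹ := by
  have hp1 : (1 : ℝ) < p := by exact_mod_cast hp.out.one_lt
  have hp0 : (0 : ℝ) < p := by linarith
  have hB' : 0 < ‖B‖ := norm_pos_iff.2 hB
  have h1 : ‖A / B - 1‖ ≤ ((p : ℝ) ^ (m + 3))⁻¹ := by
    have : A / B - 1 = (A - B) / B := by field_simp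
    rw [this, norm_div, div_le_iff₀ hB']
    exact h
  have hlt : ∀ k : ℕ, ((p : ℝ) ^ (k + 1))⁻¹ < 1 := by
    intro k
    exact inv_lt_one_of_one_lt₀ (one_lt_pow₀ hp1 (by omega))
  have h2 : ‖A / B‖ = 1 := by
    have h3 : A / B = (A / B - 1) + 1 := by ring
    have h4 : ‖A / B - 1‖ < ‖(1 : ℚ_[p])‖ := by
      rw [norm_one]
      exact lt_of_le_of_lt h1 (hlt (m + 2))
    rw [h3, IsUltrametricDist.norm_add_eq_max_of_norm_ne_norm h4.ne, max_eq_right h4.le, norm_one]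
  let z : ℤ_[p] := ⟨A / B, h2.le⟩
  have hz : ‖z - 1‖ ≤ ((p : ℝ) ^ (m + 3))⁻¹ := h1
  obtain ⟨w, hw, hw1⟩ := one_sq2 hz
  have hw' : ((w : ℚ_[p])) ^ 2 = A / B := by
    have := congrArg (fun u : ℤ_[p] => (u : ℚ_[p])) hw
    simpa using this
  refine ⟨(w : ℚ_[p]), ?_, ?_, ?_⟩
  · intro h0
    rw [h0] at hw'
    have h5 : A / B = 0 := by rw [← hw']; ring
    rw [h5, norm_zero] at h2
    exact zero_ne_one h2
  · rw [hw']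
    field_simp
  · rw [norm_sub_rev]
    exact hw1

lemma int_dvd {x : ℤ} {k : ℕ} (h : (p : ℤ) ^ k ∣ x) : ‖((x : ℤ) : ℚ_[p])‖ ≤ ((p : ℝ) ^ k)⁻¹ := by
  have h1 := (Padic.norm_int_le_pow_iff_dvd (p := p) x k).2 (by exact_mod_cast h)
  rwa [zpow_neg, zpow_natCast] at h1

lemma int_not_dvd {x : ℤ} {k : ℕ} (h : ¬ ((p : ℤ) ^ (k + 1) ∣ x)) :
    ((p : ℝ) ^ k)⁻¹ ≤ ‖((x : ℤ) : ℚ_[p])‖ := by
  have h1 : ¬ ‖((x : ℤ) : ℚ_[p])‖ ≤ (p : ℝ) ^ (-((k + 1 : ℕ) : ℤ)) := by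
    intro h2
    apply h
    have h3 := (Padic.norm_int_le_pow_iff_dvd (p := p) x (k + 1)).1 h2
    exact_mod_cast h3
  rw [Padic.norm_le_pow_iff_norm_lt_pow_add_one, not_lt] at h1
  have h2 : (-((k + 1 : ℕ) : ℤ)) + 1 = -(k : ℤ) := by push_cast; ring
  rwa [h2, zpow_neg, zpow_natCast] at h1

theorem trw_ : S_TRW := by
  intro r e p hp n c c' a a' hc ha hF
  have hp1 : (1 : ℝ) < p := by exact_mod_cast hp.out.one_lt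
  have hp0 : (0 : ℝ) < p := by linarith
  have hcong : ∀ k, (p : ℤ) ^ (9 * n + 26) ∣ fm (c k) (a 0) (a 1) - fm (c' k) (a' 0) (a' 1) :=
    fun k => fm_congr2 (hc k) (ha 0) (ha 1)
  have hF' : ∀ k, ¬ ((p : ℤ) ^ (8 * n + 24) ∣ fm (c' k) (a' 0) (a' 1)) := by
    intro k h
    apply hF k
    have h1 : (p : ℤ) ^ (8 * n + 24) ∣ fm (c k) (a 0) (a 1) - fm (c' k) (a' 0) (a' 1) :=
      (pow_dvd_pow _ (by omega)).trans (hcong k)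
    have h2 := dvd_add h1 h
    rwa [sub_add_cancel] at h2
  refine ⟨hF', ?_⟩
  intro z hz hX
  have hne : ∀ k, ((fm (c' k) (a' 0) (a' 1) : ℤ) : ℚ_[p]) ≠ 0 := by
    intro k h
    apply hF' k
    have h1 : fm (c' k) (a' 0) (a' 1) = 0 := by exact_mod_cast h
    rw [h1]
    exact dvd_zero _
  have hrho : ∀ k, ∃ w : ℚ_[p], w ≠ 0 ∧ ((fm (c k) (a 0) (a 1) : ℤ) : ℚ_[p]) =
      ((fm (c' k) (a' 0) (a' 1) : ℤ) : ℚ_[p]) * w ^ 2 ∧ ‖1 - w‖ ≤ ((p : ℝ) ^ (n + 2))⁻¹ := by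
    intro k
    apply ratio_sq2 (hne k)
    have h1 := int_dvd (hcong k)
    rw [Int.cast_sub] at h1
    have h2 := int_not_dvd (k := 8 * n + 23) (hF' k)
    calc _ ≤ ((p : ℝ) ^ (9 * n + 26))⁻¹ := h1
      _ = ((p : ℝ) ^ (n + 3))⁻¹ * ((p : ℝ) ^ (8 * n + 23))⁻¹ := by
        rw [← mul_inv, ← pow_add]
        congr 2
        omega
      _ ≤ _ := by gcongr
  choose ρ hρ0 hρ hρ1 using hrho
  obtain ⟨-, hX2⟩ := hX
  refine ⟨fun i j => ρ (i, j) * z i j, ⟨?_, ?_⟩, ?_⟩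
  · intro k
    show fmv (c' k) ((a' 0 : ℤ) : ℚ_[p]) ((a' 1 : ℤ) : ℚ_[p]) ≠ 0
    rw [Pool.Agent.N454.DC.fmv_cast]
    exact hne k
  · intro i
    obtain ⟨hz0, hz1⟩ := hX2 i
    refine ⟨?_, ?_⟩
    · intro h
      apply hz0
      funext j
      have h1 := congrFun h j
      have h2 : ρ (i, j) * z i j = 0 := h1
      exact (mul_eq_zero.1 h2).resolve_left (hρ0 (i, j))
    · show fmv (c' (i, 0)) ((a' 0 : ℤ) : ℚ_[p]) ((a' 1 : ℤ) : ℚ_[p]) * (ρ (i, 0) * z i 0) ^ 2 +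
        fmv (c' (i, 1)) ((a' 0 : ℤ) : ℚ_[p]) ((a' 1 : ℤ) : ℚ_[p]) * (ρ (i, 1) * z i 1) ^ 2 =
        fmv (c' (i, 2)) ((a' 0 : ℤ) : ℚ_[p]) ((a' 1 : ℤ) : ℚ_[p]) * (ρ (i, 2) * z i 2) ^ 2
      have hz1' : fmv (c (i, 0)) ((a 0 : ℤ) : ℚ_[p]) ((a 1 : ℤ) : ℚ_[p]) * z i 0 ^ 2 +
        fmv (c (i, 1)) ((a 0 : ℤ) : ℚ_[p]) ((a 1 : ℤ) : ℚ_[p]) * z i 1 ^ 2 =
        fmv (c (i, 2)) ((a 0 : ℤ) : ℚ_[p]) ((a 1 : ℤ) : ℚ_[p]) * z i 2 ^ 2 := hz1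
      simp only [Pool.Agent.N454.DC.fmv_cast] at hz1' ⊢
      rw [hρ (i, 0), hρ (i, 1), hρ (i, 2)] at hz1'
      linear_combination hz1'
  · intro i j
    show ‖z i j - ρ (i, j) * z i j‖ ≤ _
    have h1 : z i j - ρ (i, j) * z i j = (1 - ρ (i, j)) * z i j := by ring
    rw [h1, norm_mul]
    have h2 : ‖z i j‖ ≤ 1 := (norm_le_pi_norm (z i) j).trans (hz i)
    calc ‖1 - ρ (i, j)‖ * ‖z i j‖ ≤ ((p : ℝ) ^ (n + 2))⁻¹ * 1 := by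
          gcongr
          exact hρ1 (i, j)
      _ ≤ ((p : ℝ) ^ n)⁻¹ := by
          rw [mul_one]
          exact inv_anti₀ (by positivity) (pow_le_pow_right₀ hp1.le (by omega))

end Pool.Agent.N91.DW
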